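import Pool.Agent.H28.RC.Basic
import Pool.Agent.H76.HK.EP

/-!
# The Euler product of the L-function of a ray class character
-/

set_option autoImplicit false

open Filter Topology NumberField nonZeroDivisors

namespace Pool.Agent.H81.RC

open Pool.Agent.H28.RC Pool.Agent.H25.HK Pool.Agent.H25 Pool.Agent.H76.HK

/-- the local parameters -/
lemma local_params {ι : Type*} (S : Finset ι) (f : ι → ℕ) (hf : ∀ P ∈ S, 0 < f P) (ψ : ι → ℂ)
    (hψ : ∀ P, ψ P = 0 ∨ ‖ψ P‖ = 1) (n : ℕ) (hn : ∑ P ∈ S, f P ≤ n) :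
    ∃ α : Fin n → ℂ, (∀ j, α j = 0 ∨ ‖α j‖ = 1) ∧
      (∀ X : ℂ, ∏ j, (1 - α j * X) = ∏ P ∈ S, (1 - ψ P * X ^ f P)) ∧
      ∀ k : ℕ, 1 ≤ k → ∑ j, α j ^ k =
        ∑ P ∈ S, if f P ∣ k then (f P : ℂ) * ψ P ^ (k / f P) else 0 := by
  classical
  have hz : ∀ P : S, ∃ ζ : ℂ, IsPrimitiveRoot ζ (f P) := fun P =>
    ⟨_, Complex.isPrimitiveRoot_exp (f P) (hf P P.2).ne'⟩
  choose ζ hζ using hz
  have hr : ∀ P : S, ∃ ρ : ℂ, ρ ^ f P = ψ P := fun P =>
    ⟨_, Complex.cpow_nat_inv_pow (ψ P) (hf P P.2).ne'⟩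
  choose ρ hρ using hr
  have hcard : Fintype.card ((Σ P : S, Fin (f P)) ⊕ Fin (n - ∑ P ∈ S, f P)) = n := by
    rw [Fintype.card_sum, Fintype.card_sigma, Fintype.card_fin]
    simp only [Fintype.card_fin]
    rw [Finset.sum_coe_sort S f]
    omega
  have e : Fin n ≃ (Σ P : S, Fin (f P)) ⊕ Fin (n - ∑ P ∈ S, f P) :=
    (Fintype.equivFinOfCardEq hcard).symm
  have hnorm : ∀ P : S, ‖ζ P‖ = 1 := fun P =>
    (hζ P).norm'_eq_one (hf P P.2).ne'
  have hnr : ∀ P : S, ρ P = 0 ∨ ‖ρ P‖ = 1 := by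
    intro P
    rcases hψ P with h | h
    · left
      have h1 := hρ P
      rw [h] at h1
      exact pow_eq_zero_iff (hf P P.2).ne' |>.1 h1
    · right
      have h1 := congrArg norm (hρ P)
      rw [h, norm_pow] at h1
      exact (pow_eq_one_iff_of_nonneg (norm_nonneg _) (hf P P.2).ne').1 h1
  set β : (Σ P : S, Fin (f P)) ⊕ Fin (n - ∑ P ∈ S, f P) → ℂ :=
    Sum.elim (fun x => ρ x.1 * ζ x.1 ^ (x.2 : ℕ)) fun _ => 0 with hβ
  have hb : ∀ x, β x = 0 ∨ ‖β x‖ = 1 := by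
    rintro (x | x)
    · rcases hnr x.1 with h | h
      · left
        simp [hβ, h]
      · right
        simp [hβ, h, hnorm]
    · left
      simp [hβ]
  refine ⟨fun j => β (e j), fun j => hb _, fun X => ?_, fun k hk => ?_⟩
  · rw [e.prod_comp fun x => 1 - β x * X, Fintype.prod_sum_type, Fintype.prod_sigma]
    simp only [hβ, Sum.elim_inl, Sum.elim_inr, zero_mul, sub_zero, Finset.prod_const_one, mul_one]
    rw [← Finset.prod_coe_sort S fun P => 1 - ψ P * X ^ f P]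
    refine Finset.prod_congr rfl fun P _ => ?_
    have h1 := prod_unity (hf P P.2) (hζ P) (ρ P * X)
    rw [mul_pow, hρ P] at h1
    rw [← h1]
    refine Finset.prod_congr rfl fun i _ => ?_
    ring
  · rw [e.sum_comp fun x => β x ^ k, Fintype.sum_sum_type, Fintype.sum_sigma]
    simp only [hβ, Sum.elim_inl, Sum.elim_inr, zero_pow (by omega : k ≠ 0), Finset.sum_const_zero,
      add_zero]
    rw [← Finset.sum_coe_sort S fun P => if f P ∣ k then (f P : ℂ) * ψ P ^ (k / f P) else 0]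
    refine Finset.sum_congr rfl fun P _ => ?_
    have h1 : ∀ i : Fin (f P), (ρ P * ζ P ^ (i : ℕ)) ^ k = ρ P ^ k * (ζ P ^ (i : ℕ)) ^ k :=
      fun i => mul_pow _ _ _
    simp_rw [h1]
    rw [← Finset.mul_sum, sum_unity (hζ P) k]
    split_ifs with h
    · obtain ⟨m, rfl⟩ := h
      rw [Nat.mul_div_cancel_left _ (hf P P.2), pow_mul, hρ P, mul_comm]
    · rw [mul_zero]

section

variable {K : Type} [Field K] [NumberField K]

lemma ps_or (χ : RCC K) (I : Ideal (𝓞 K)) : χ.ψ I = 0 ∨ ‖χ.ψ I‖ = 1 := by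
  by_cases h0 : I = ⊥
  · exact Or.inl (by rw [h0, χ.map_bot])
  · by_cases h : I ⊔ χ.f = ⊤
    · exact Or.inr (χ.norm_one I h0 h)
    · exact Or.inl (χ.eq_zero I h)

/-- `I ↦ ψ(I) N(I)^{-s}` -/
noncomputable def nmc (χ : RCC K) (s : ℂ) : Ideal (𝓞 K) →*₀ ℂ where
  toFun I := χ.ψ I * (Ideal.absNorm I : ℂ) ^ (-s)
  map_zero' := by
    rw [Ideal.zero_eq_bot, χ.map_bot, zero_mul]
  map_one' := by rw [Ideal.one_eq_top, χ.map_one]; simp
  map_mul' I J := by
    rw [χ.map_mul, map_mul]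
    push_cast
    rw [Complex.natCast_mul_natCast_cpow]
    ring

lemma nmc_summable (χ : RCC K) {s : ℂ} (hs : 1 < s.re) : Summable fun I => ‖nmc χ s I‖ := by
  refine Summable.of_nonneg_of_le (fun I => norm_nonneg _) (fun I => ?_) (fiber_sum K hs).1
  change ‖χ.ψ I * (Ideal.absNorm I : ℂ) ^ (-s)‖ ≤ ‖(Ideal.absNorm I : ℂ) ^ (-s)‖
  rw [norm_mul]
  exact mul_le_of_le_one_left (norm_nonneg _) (rcc_norm_le χ I)

lemma Lc_eq (χ : RCC K) (s : ℂ) : Lc χ s = ∑' I, nmc χ s I := by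
  unfold Lc
  refine tsum_subtype_eq_of_support_subset (f := fun I => nmc χ s I) (s := {I | I ≠ ⊥})
    fun I hI => ?_
  rw [Set.mem_ofPred_eq]
  rintro rfl
  exact hI (map_zero (nmc χ s))

lemma primes_iff (p : ℕ) (hp : p.Prime) (P : Ideal (𝓞 K)) :
    P ∈ Ideal.primesOver (Ideal.span {(p : ℤ)}) (𝓞 K) ↔ P.IsPrime ∧ P ≠ ⊥ ∧ (p : 𝓞 K) ∈ P := by
  have hp0 : (Ideal.span {(p : ℤ)}) ≠ ⊥ := by
    rw [Ne, Ideal.span_singleton_eq_bot]
    exact_mod_cast hp.ne_zero
  have hpp : (Ideal.span {(p : ℤ)}).IsPrime := by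
    rw [Ideal.span_singleton_prime (by exact_mod_cast hp.ne_zero)]
    exact Nat.prime_iff_prime_int.1 hp
  have hpm : (Ideal.span {(p : ℤ)}).IsMaximal := hpp.isMaximal hp0
  constructor
  · rintro ⟨h1, h2⟩
    refine ⟨h1, Ideal.ne_bot_of_mem_primesOver hp0 ⟨h1, h2⟩, ?_⟩
    have h3 : (p : ℤ) ∈ P.under ℤ := by
      rw [← Ideal.over_def P (Ideal.span {(p : ℤ)})]
      exact Ideal.mem_span_singleton_self _
    rw [Ideal.under_def, Ideal.mem_comap] at h3
    simpa using h3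
  · rintro ⟨h1, h2, h3⟩
    refine ⟨h1, ⟨?_⟩⟩
    apply hpm.eq_of_le (Ideal.IsPrime.under ℤ P).ne_top
    rw [Ideal.span_singleton_le_iff_mem, Ideal.under_def, Ideal.mem_comap]
    simpa using h3

lemma spc_eq (χ : RCC K) (p k : ℕ) (hp : p.Prime) (S : Finset (Ideal (𝓞 K)))
    (hS : ∀ P, P ∈ S ↔ P.IsPrime ∧ P ≠ ⊥ ∧ (p : 𝓞 K) ∈ P) :
    spc χ p k = ∑ P ∈ S, if P.inertiaDeg ℤ ∣ k then
      (P.inertiaDeg ℤ : ℂ) * χ.ψ P ^ (k / P.inertiaDeg ℤ) else 0 := by
  have h : Ideal.primesOver (Ideal.span {(p : ℤ)}) (𝓞 K) = (S : Set (Ideal (𝓞 K))) := by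
    ext P
    rw [primes_iff p hp, Finset.mem_coe, hS]
  unfold spc
  rw [h, finsum_mem_coe_finset]

end

/-- module EP, without hypotheses -/
theorem ep : T_EPc := by
  classical
  intro K _ _ χ
  refine ⟨fun s hs => ((nmc_summable χ hs).subtype {I | I ≠ ⊥} :), ?_⟩
  choose S hS1 hS2 hS3 hS4 using fun p : Nat.Primes => primes_fin K p p.2
  choose α hα1 hα2 hα3 using fun p : Nat.Primes =>
    local_params (S p) (fun P => P.inertiaDeg ℤ) (fun P hP => (hS2 p P hP).1) χ.ψ (ps_or χ)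
      (Module.finrank ℚ K) (hS3 p)
  have hα0 : ∀ (p : Nat.Primes) j, ‖α p j‖ ≤ 1 := by
    intro p j
    rcases hα1 p j with h | h
    · rw [h, norm_zero]; exact zero_le_one
    · exact h.le
  set a : Fin (Module.finrank ℚ K) → ℕ → ℂ := fun j p => if h : p.Prime then α ⟨p, h⟩ j else 0
    with ha
  have ha1 : ∀ j p, ‖a j p‖ ≤ 1 := by
    intro j p
    rw [ha]
    dsimp only
    split_ifs with h
    · exact hα0 _ j
    · simp
  have hap : ∀ j, ∀ p : Nat.Primes, a j p = α p j := by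
    intro j p
    simp only [ha, dif_pos p.2]
    rfl
  refine ⟨fun j => H48.DL.hf (a j), fun j => H48.DL.hf_zero _, fun j => H48.DL.hf_one _,
    fun j => H48.DL.hf_mul _, fun j => H48.DL.hf_le _ (ha1 j), fun j p hp => ?_,
    fun s hs => ?_, fun p k hp hk => ?_⟩
  · have h1 : H48.DL.hf (a j) p = α ⟨p, hp⟩ j := (H48.DL.hf_prime _ hp).trans (hap j ⟨p, hp⟩)
    rcases hα1 ⟨p, hp⟩ j with h | h
    · exact Or.inl (h1.trans h)
    · exact Or.inr ((congrArg norm h1).trans h)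
  · have hsum' : Summable fun I => ‖nmc χ s I‖ := nmc_summable χ hs
    obtain ⟨hne, hprod⟩ := euler_group hsum' S (fun p P hP => by
        have := (hS1 p P).1 hP
        exact ⟨this.1, this.2.1⟩)
      (fun p q hpq => by
        rw [Finset.disjoint_left]
        intro P h1 h2
        have h3 := (hS1 p P).1 h1
        have h4 := (hS1 q P).1 h2
        apply h3.1.ne_top
        rw [Ideal.eq_top_iff_one]
        have h5 : Nat.Coprime p q := (Nat.coprime_primes p.2 q.2).2 fun h => hpq (Subtype.ext h)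
        have h6 : IsCoprime ((p : ℕ) : ℤ) ((q : ℕ) : ℤ) := Nat.isCoprime_iff_coprime.2 h5
        obtain ⟨u, v, huv⟩ := h6
        have h7 : (1 : 𝓞 K) = (u : 𝓞 K) * ((p : ℕ) : 𝓞 K) + (v : 𝓞 K) * ((q : ℕ) : 𝓞 K) := by
          have := congrArg (Int.cast : ℤ → 𝓞 K) huv
          push_cast at this
          exact this.symm
        rw [h7]
        exact P.add_mem (P.mul_mem_left _ h3.2.2) (P.mul_mem_left _ h4.2.2))
      (fun P hP hP0 => by
        have h1 : (Ideal.absNorm P) ≠ 0 := by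
          rwa [Ne, Ideal.absNorm_eq_zero_iff]
        have h2 : ((Ideal.absNorm P : ℕ) : 𝓞 K) ∈ P := Ideal.absNorm_mem P
        have h3 : ∀ n : ℕ, n ≠ 0 → (n : 𝓞 K) ∈ P → ∃ p : Nat.Primes, (((p : ℕ)) : 𝓞 K) ∈ P := by
          intro n
          induction n using Nat.recOnMul with
          | zero => intro h; exact absurd rfl h
          | one =>
            intro _ h
            rw [Nat.cast_one] at h
            exact absurd ((Ideal.eq_top_iff_one _).2 h) hP.ne_top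
          | prime p hp =>
            intro _ h
            exact ⟨⟨p, hp⟩, h⟩
          | mul x y ihx ihy =>
            intro h h'
            rw [Nat.cast_mul] at h'
            rcases hP.mem_or_mem h' with h'' | h''
            · exact ihx (left_ne_zero_of_mul h) h''
            · exact ihy (right_ne_zero_of_mul h) h''
        obtain ⟨p, hp⟩ := h3 _ h1 h2
        exact ⟨p, (hS1 p P).2 ⟨hP, hP0, hp⟩⟩)
    have hH : ∀ j, HasProd (fun p : Nat.Primes => (1 - α p j * ((p : ℕ) : ℂ) ^ (-s))⁻¹)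
        (∑' m : ℕ, H48.DL.hf (a j) m * (m : ℂ) ^ (-s)) := by
      intro j
      have key := EulerProduct.eulerProduct_completely_multiplicative_hasProd
        (H48.DL.summable_hom (a j) (ha1 j) s hs)
      have h2 : (fun p : Nat.Primes => (1 - α p j * ((p : ℕ) : ℂ) ^ (-s))⁻¹) =
          fun p : Nat.Primes => (1 - H48.DL.hom (a j) s p)⁻¹ := by
        funext p
        change _ = (1 - H48.DL.hf (a j) p * ((p : ℕ) : ℂ) ^ (-s))⁻¹
        rw [H48.DL.hf_prime _ p.2, hap]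
      rw [h2]
      exact key
    have hH2 : HasProd (fun p : Nat.Primes => ∏ j, (1 - α p j * ((p : ℕ) : ℂ) ^ (-s))⁻¹)
        (∏ j, ∑' m : ℕ, H48.DL.hf (a j) m * (m : ℂ) ^ (-s)) :=
      hasProd_prod fun j _ => hH j
    have hloc : ∀ p : Nat.Primes, (∏ P ∈ S p, (1 - nmc χ s P)) *
        ∏ j, (1 - α p j * ((p : ℕ) : ℂ) ^ (-s))⁻¹ = 1 := by
      intro p
      have h1 : ∏ P ∈ S p, (1 - nmc χ s P) = ∏ j, (1 - α p j * ((p : ℕ) : ℂ) ^ (-s)) := by
        rw [hα2 p]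
        refine Finset.prod_congr rfl fun P hP => ?_
        congr 1
        change χ.ψ P * ((Ideal.absNorm P : ℕ) : ℂ) ^ (-s) = _
        rw [← (hS2 p P hP).2, pow_cpow]
      rw [h1, ← Finset.prod_mul_distrib]
      refine Finset.prod_eq_one fun j _ => mul_inv_cancel₀ fun h => ?_
      have h2 : ‖α p j * ((p : ℕ) : ℂ) ^ (-s)‖ < 1 := by
        rw [norm_mul, Complex.norm_natCast_cpow_of_pos p.2.pos, Complex.neg_re]
        have h3 : ((p : ℕ) : ℝ) ^ (-s.re) < 1 :=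
          Real.rpow_lt_one_of_one_lt_of_neg (by exact_mod_cast p.2.one_lt) (by linarith)
        have h4 : 0 ≤ ((p : ℕ) : ℝ) ^ (-s.re) := Real.rpow_nonneg (Nat.cast_nonneg _) _
        have := hα0 p j
        nlinarith
      rw [sub_eq_zero] at h
      rw [← h, norm_one] at h2
      exact lt_irrefl _ h2
    have hfin := hprod.mul hH2
    have hone : (fun p : Nat.Primes => (∏ P ∈ S p, (1 - nmc χ s P)) *
        ∏ j, (1 - α p j * ((p : ℕ) : ℂ) ^ (-s))⁻¹) = fun _ => 1 := funext hloc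
    rw [hone] at hfin
    have h1 := hasProd_one.unique hfin
    rw [Lc_eq]
    field_simp at h1
    exact h1
  · rw [spc_eq χ p k hp (S ⟨p, hp⟩) (hS1 ⟨p, hp⟩), ← hα3 ⟨p, hp⟩ k hk]
    refine Finset.sum_congr rfl fun j _ => ?_
    have h1 : H48.DL.hf (a j) p = α ⟨p, hp⟩ j := (H48.DL.hf_prime _ hp).trans (hap j ⟨p, hp⟩)
    exact congrArg (· ^ k) h1

/-- module EP -/
theorem pf_EP (_ : T_DS) : T_EPc := ep

end Pool.Agent.H81.RC
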