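import Pool.Agent.H28.RC.Basic
import Pool.Agent.H25.HK.HE

/-!
# Hecke's functional equation for primitive ray class characters
-/

set_option autoImplicit false

open NumberField NumberField.InfinitePlace NumberField.Units
  NumberField.Units.dirichletUnitTheorem MeasureTheory Set Filter Complex
open scoped nonZeroDivisors ENNReal

namespace Pool.Agent.H81.RC

open Pool.Agent.H28.RC Pool.Agent.H25.HK Pool.Agent.H25

namespace HE

lemma cpow_bd (x : ℝ) (w : ℂ) (B : ℝ) (hx : 0 < x) (hw : |w.re| ≤ B) :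
    ‖((x : ℝ) : ℂ) ^ w‖ ≤ Real.exp (|Real.log x| * B) := by
  rw [norm_cpow_eq_rpow_re_of_pos hx, Real.rpow_def_of_pos hx]
  refine Real.exp_le_exp.2 ?_
  calc Real.log x * w.re ≤ |Real.log x * w.re| := le_abs_self _
    _ = |Real.log x| * |w.re| := abs_mul _ _
    _ ≤ |Real.log x| * B := by gcongr

/-- bounds for the Mellin transform of a pair of weight `1` -/
lemma bd_lam (hBD : T_BD) (P : WeakFEPair ℂ) (b : ℝ) :
    ∃ C : ℝ, 0 ≤ C ∧ ∀ s : ℂ, |s.re| ≤ b → 1 ≤ |s.im| → ‖P.Λ s‖ ≤ C := by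
  obtain ⟨Cb, hCb⟩ := hBD P b
  refine ⟨|Cb| + ‖P.f₀‖ + ‖P.ε‖ * ‖P.g₀‖, by positivity, fun s hs him => ?_⟩
  have h6 : P.Λ s = P.Λ₀ s - (1 / s) • P.f₀ - (P.ε / (P.k - s)) • P.g₀ := rfl
  rw [h6]
  have h7 : ‖(1 / s) • P.f₀‖ ≤ ‖P.f₀‖ := by
    rw [norm_smul, norm_div, norm_one]
    have h8 : 1 ≤ ‖s‖ := him.trans (abs_im_le_norm s)
    have h9 : 1 / ‖s‖ ≤ 1 := by
      rw [div_le_one (by linarith)]
      exact h8
    have := norm_nonneg P.f₀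
    nlinarith
  have h8 : ‖(P.ε / (P.k - s)) • P.g₀‖ ≤ ‖P.ε‖ * ‖P.g₀‖ := by
    rw [norm_smul, norm_div]
    have h9 : 1 ≤ ‖(P.k : ℂ) - s‖ := by
      refine him.trans ?_
      have h10 := abs_im_le_norm ((P.k : ℂ) - s)
      simpa using h10
    have h10 : ‖P.ε‖ / ‖(P.k : ℂ) - s‖ ≤ ‖P.ε‖ :=
      div_le_self (norm_nonneg _) h9
    gcongr
  calc ‖P.Λ₀ s - (1 / s) • P.f₀ - (P.ε / (P.k - s)) • P.g₀‖
      ≤ ‖P.Λ₀ s - (1 / s) • P.f₀‖ + ‖(P.ε / (P.k - s)) • P.g₀‖ := norm_sub_le _ _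
    _ ≤ ‖P.Λ₀ s‖ + ‖(1 / s) • P.f₀‖ + ‖(P.ε / (P.k - s)) • P.g₀‖ := by
        gcongr
        exact norm_sub_le _ _
    _ ≤ |Cb| + ‖P.f₀‖ + ‖P.ε‖ * ‖P.g₀‖ := by
        have := (hCb s hs).trans (le_abs_self Cb)
        gcongr

/-- the sum over the ideal classes -/
noncomputable def LK {ι : Type} [Fintype ι] (N : ι → ℝ) (P : ι → WeakFEPair ℂ) (s : ℂ) : ℂ :=
  ∑ c, ((N c : ℝ) : ℂ) ^ s * (P c).Λ s

lemma LK_diff {ι : Type} [Fintype ι] (N : ι → ℝ) (P : ι → WeakFEPair ℂ) (hN : ∀ c, 0 < N c)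
    (s : ℂ) (hs : s.im ≠ 0) : DifferentiableAt ℂ (LK N P) s := by
  have h : LK N P = fun s => ∑ c, ((N c : ℝ) : ℂ) ^ s * (P c).Λ s := rfl
  rw [h]
  refine DifferentiableAt.fun_sum fun c _ => ?_
  have h1 : DifferentiableAt ℂ (fun s : ℂ => ((N c : ℝ) : ℂ) ^ s) s :=
    (differentiableAt_id).const_cpow (Or.inl (by exact_mod_cast (hN c).ne'))
  refine h1.mul ((P c).differentiableAt_Λ (Or.inl ?_) (Or.inl ?_))
  · rintro rfl; simp at hs
  · rintro rfl; simp at hs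

lemma LK_bd (hBD : T_BD) {ι : Type} [Fintype ι] (N : ι → ℝ) (P : ι → WeakFEPair ℂ)
    (hN : ∀ c, 0 < N c) (b : ℝ) :
    ∃ C : ℝ, 0 ≤ C ∧ ∀ s : ℂ, |s.re| ≤ b → 1 ≤ |s.im| → ‖LK N P s‖ ≤ C := by
  choose C hC0 hC using fun c => bd_lam hBD (P c) b
  refine ⟨∑ c, Real.exp (|Real.log (N c)| * b) * C c,
    Finset.sum_nonneg fun c _ => mul_nonneg (Real.exp_pos _).le (hC0 c), fun s hs him => ?_⟩
  unfold LK
  refine (norm_sum_le _ _).trans (Finset.sum_le_sum fun c _ => ?_)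
  rw [norm_mul]
  exact mul_le_mul (cpow_bd (N c) s b (hN c) hs) (hC c s hs him) (norm_nonneg _)
    (Real.exp_pos _).le

section

variable {K : Type} [Field K] [NumberField K]

open scoped Classical in
/-- the constant -/
noncomputable def cK (K : Type) [Field K] [NumberField K] : ℂ :=
  (torsionOrder K : ℂ) * ((2 : ℂ) ^ (nrRealPlaces K + nrComplexPlaces K))⁻¹

lemma cK_ne (K : Type) [Field K] [NumberField K] : cK K ≠ 0 := by
  have h1 : (torsionOrder K : ℂ) ≠ 0 := by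
    exact_mod_cast (torsionOrder_pos K).ne'
  exact mul_ne_zero h1 (inv_ne_zero (pow_ne_zero _ two_ne_zero))

/-- the Mellin transform of the sum over the classes is the completed `L`-function -/
lemma LK_eq (hME : T_MEc) (hEP : T_EPc) (χ : RCC K) {ι : Type} [Fintype ι] (M : ι → FI K)
    (hM0 : ∀ c, M c ≠ 0) (hM1 : ∀ I : Ideal (𝓞 K), I ≠ ⊥ → ∃! c, Pri K (M c) I)
    (hN : ∀ c, 0 < (FractionalIdeal.absNorm (M c) : ℝ)) (P : ι → WeakFEPair ℂ)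
    (hPk : ∀ c, (P c).k = 1) (hPf : ∀ c t, (P c).f t = ffc χ (M c) t)
    (hPf0 : ∀ c, (P c).f₀ = k0 χ (M c)) (s : ℂ) (hs : 1 < s.re) :
    LK (fun c => (FractionalIdeal.absNorm (M c) : ℝ)) P s = cK K * gS χ s * Lc χ s := by
  have h1 := (hEP K χ).1 s hs
  unfold LK Lc
  rw [← sum_partition (fun I : Ideal (𝓞 K) => I ≠ ⊥) (fun c I => Pri K (M c) I)
    (fun c I h => h.1) hM1 (fun I => χ.ψ I * (Ideal.absNorm I : ℂ) ^ (-s)) h1, Finset.mul_sum]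
  refine Finset.sum_congr rfl fun c _ => ?_
  have hΛ : (P c).Λ s = cK K * gS χ s * (((FractionalIdeal.absNorm (M c) : ℝ) : ℝ) : ℂ) ^ (-s) *
      ∑' I : {I : Ideal (𝓞 K) // Pri K (M c) I}, χ.ψ I.1 * (Ideal.absNorm I.1 : ℂ) ^ (-s) := by
    have h1 := ((P c).hasMellin (s := s) (by rw [hPk]; exact hs)).2
    rw [← h1]
    have h2 : (fun x => (P c).f x - (P c).f₀) = fun t => ffc χ (M c) t - k0 χ (M c) := by
      funext t
      rw [hPf, hPf0]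
    rw [h2, hME K χ (M c) (hM0 c) s hs]
    rfl
  rw [hΛ]
  have h3 : (((FractionalIdeal.absNorm (M c) : ℝ) : ℝ) : ℂ) ^ s *
      (((FractionalIdeal.absNorm (M c) : ℝ) : ℝ) : ℂ) ^ (-s) = 1 := by
    rw [← cpow_add _ _ (by exact_mod_cast (hN c).ne'), add_neg_cancel, cpow_zero]
  linear_combination (cK K * gS χ s * ∑' I : {I : Ideal (𝓞 K) // Pri K (M c) I},
    χ.ψ I.1 * (Ideal.absNorm I.1 : ℂ) ^ (-s)) * h3

lemma gS_inv_diff (χ : RCC K) : Differentiable ℂ fun s => (gS χ s)⁻¹ := by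
  have h1 : (fun s => (gS χ s)⁻¹) = fun s => (Gammaℝ s)⁻¹ ^ (nrRealPlaces K - χ.S.card) *
      (Gammaℝ (s + 1))⁻¹ ^ χ.S.card *
      ((Gammaℝ s)⁻¹ * (Gammaℝ (s + 1))⁻¹) ^ nrComplexPlaces K := by
    funext s
    unfold gS
    rw [Gammaℂ_eq, mul_inv, mul_inv, inv_pow, inv_pow, ← inv_pow (Gammaℝ s * Gammaℝ (s + 1)),
      mul_inv]
  rw [h1]
  have h2 : Differentiable ℂ fun s => (Gammaℝ s)⁻¹ := differentiable_Gammaℝ_inv
  have h3 : Differentiable ℂ fun s => (Gammaℝ (s + 1))⁻¹ :=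
    h2.comp (differentiable_id.add_const 1)
  exact ((h2.pow _).mul (h3.pow _)).mul ((h2.mul h3).pow _)

lemma gS_ne_of_im (χ : RCC K) {s : ℂ} (hs : s.im ≠ 0) : gS χ s ≠ 0 := by
  unfold gS
  rw [Gammaℂ_eq]
  have h1 := Gammaℝ_ne_of_im hs
  have h2 : Gammaℝ (s + 1) ≠ 0 := Gammaℝ_ne_of_im (by simpa using hs)
  exact mul_ne_zero (mul_ne_zero (pow_ne_zero _ h1) (pow_ne_zero _ h2))
    (pow_ne_zero _ (mul_ne_zero h1 h2))

lemma gS_ne_of_re (χ : RCC K) {s : ℂ} (hs : 1 < s.re) : gS χ s ≠ 0 := by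
  unfold gS
  rw [Gammaℂ_eq]
  have h1 : Gammaℝ s ≠ 0 := Gammaℝ_ne_zero_of_re_pos (by linarith)
  have h2 : Gammaℝ (s + 1) ≠ 0 := Gammaℝ_ne_zero_of_re_pos (by simp; linarith)
  exact mul_ne_zero (mul_ne_zero (pow_ne_zero _ h1) (pow_ne_zero _ h2))
    (pow_ne_zero _ (mul_ne_zero h1 h2))

/-- the conductor-discriminant -/
noncomputable def Dc (χ : RCC K) : ℝ := |(discr K : ℝ)| * (Ideal.absNorm χ.f : ℝ)

/-- the candidate -/
noncomputable def Zc (χ : RCC K) (L : ℂ → ℂ) (s : ℂ) : ℂ := (cK K)⁻¹ * (gS χ s)⁻¹ * L s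

lemma compc_Zc (χ : RCC K) (L : ℂ → ℂ) {s : ℂ} (hs : s.im ≠ 0) :
    compc χ (Zc χ L) s = ((Dc χ : ℝ) : ℂ) ^ (s / 2) * (cK K)⁻¹ * L s := by
  unfold compc Zc Dc
  have := gS_ne_of_im χ hs
  field_simp

lemma IsZc_Zc (χ : RCC K) (L : ℂ → ℂ) (h1 : ∀ s : ℂ, s.im ≠ 0 → DifferentiableAt ℂ L s)
    (h2 : ∀ s : ℂ, 1 < s.re → L s = cK K * gS χ s * Lc χ s) : IsZc χ (Zc χ L) := by
  refine ⟨fun s hs => ?_, fun s hs => ?_⟩
  · exact (((gS_inv_diff χ s).const_mul (cK K)⁻¹)).mul (h1 s hs)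
  · unfold Zc
    rw [h2 s hs]
    have h3 := gS_ne_of_re χ hs
    have h4 := cK_ne K
    field_simp

lemma compc_bd (χ : RCC K) (L : ℂ → ℂ) (hD : 0 < Dc χ) (b C : ℝ) (_ : 0 ≤ C)
    (h : ∀ s : ℂ, |s.re| ≤ b → 1 ≤ |s.im| → ‖L s‖ ≤ C) (s : ℂ) (hs : |s.re| ≤ b)
    (him : 1 ≤ |s.im|) :
    ‖compc χ (Zc χ L) s‖ ≤ Real.exp (|Real.log (Dc χ)| * b) * ‖(cK K)⁻¹‖ * C := by
  have hs0 : s.im ≠ 0 := by
    intro h
    rw [h, abs_zero] at him
    linarith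
  rw [compc_Zc χ L hs0, norm_mul, norm_mul]
  have h2 : ‖((Dc χ : ℝ) : ℂ) ^ (s / 2)‖ ≤ Real.exp (|Real.log (Dc χ)| * b) := by
    refine cpow_bd _ _ _ hD ?_
    have h3 : (s / 2).re = s.re / 2 := by simp
    rw [h3, abs_div, abs_two]
    have := abs_nonneg s.re
    linarith
  have h3 := h s hs him
  gcongr

end

end HE

open HE in
open scoped Classical in
theorem pf_HE : T_WPc → T_MEc → T_CSc → T_EPc → T_DU → T_CW → T_CN → T_BD → T_HEc := by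
  intro hWP hME hCS hEP hDU hCW hCN hBD K _ _ χ
  obtain ⟨W, hW⟩ := hCW K χ
  have hWn := hCN K χ W hW
  obtain ⟨ι, hι, M, hM0, hM1, hM2⟩ := hCS K χ.f χ.f_ne
  choose P hPf hPg hPk hPε hPf0 hPg0 using fun c => hWP K χ W (M c) hW (hM0 c)
  have hf0 : ((χ.f : Ideal (𝓞 K)) : FI K) ≠ 0 := by
    rw [Ne, FractionalIdeal.coeIdeal_eq_zero]
    exact χ.f_ne
  have hfM : ∀ c, (χ.f : FI K) * M c ≠ 0 := fun c => mul_ne_zero hf0 (hM0 c)
  have hNf : (0 : ℝ) < (Ideal.absNorm χ.f : ℝ) := by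
    have : Ideal.absNorm χ.f ≠ 0 := by
      rw [Ne, Ideal.absNorm_eq_zero_iff]
      exact χ.f_ne
    positivity
  have hd0 : 0 < |(discr K : ℝ)| := abs_pos.2 (by exact_mod_cast discr_ne_zero K)
  obtain ⟨N, hN⟩ : ∃ N : ι → ℝ, N = fun c => (FractionalIdeal.absNorm (M c) : ℝ) := ⟨_, rfl⟩
  obtain ⟨N', hN'⟩ : ∃ N' : ι → ℝ, N' = fun c => (FractionalIdeal.absNorm (du' χ (M c)) : ℝ) :=
    ⟨_, rfl⟩
  have hN0 : ∀ c, 0 < N c := fun c => by rw [hN]; exact (hDU K (M c) (hM0 c)).2.2.2.1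
  have hdu0 : ∀ c, du' χ (M c) ≠ 0 := fun c => (hDU K _ (hfM c)).1
  have hN'0 : ∀ c, 0 < N' c := fun c => by rw [hN']; exact (hDU K _ (hdu0 c)).2.2.2.1
  have hfMn : ∀ c, (FractionalIdeal.absNorm ((χ.f : FI K) * M c) : ℝ) =
      (Ideal.absNorm χ.f : ℝ) * N c := fun c => by
    rw [hN, map_mul, FractionalIdeal.coeIdeal_absNorm]
    push_cast
    rfl
  have hNN : ∀ c, N' c * ((Ideal.absNorm χ.f : ℝ) * N c) * |(discr K : ℝ)| = 1 := fun c => by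
    have h := (hDU K _ (hfM c)).2.2.2.2
    rw [hfMn c] at h
    rw [hN']
    exact h
  have hD : 0 < Dc χ := mul_pos hd0 hNf
  -- the two sums
  have hL1 : ∀ s : ℂ, 1 < s.re → LK N P s = cK K * gS χ s * Lc χ s := by
    rw [hN]
    exact LK_eq hME hEP χ M hM0 hM1 (fun c => (hDU K (M c) (hM0 c)).2.2.2.1) P hPk hPf hPf0
  have hL2 : ∀ s : ℂ, 1 < s.re → LK N' (fun c => (P c).symm) s =
      cK K * gS χ.bar s * Lc χ.bar s := by
    rw [hN']
    exact LK_eq hME hEP χ.bar (fun c => du' χ (M c)) hdu0 hM2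
      (fun c => (hDU K _ (hdu0 c)).2.2.2.1) (fun c => (P c).symm) hPk hPg hPg0
  -- the functional equation
  obtain ⟨ε, hε⟩ : ∃ ε : ℂ, ε = (-I) ^ χ.S.card * W *
    (((Real.sqrt (Ideal.absNorm χ.f : ℝ))⁻¹ : ℝ) : ℂ) := ⟨_, rfl⟩
  have hfe : ∀ s : ℂ, LK N P (1 - s) =
      ε * ((Dc χ : ℝ) : ℂ) ^ (s - 1 / 2) * LK N' (fun c => (P c).symm) s := by
    intro s
    unfold LK
    rw [Finset.mul_sum]
    refine Finset.sum_congr rfl fun c _ => ?_
    have h1 := (P c).functional_equation s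
    rw [hPk, ofReal_one, hPε] at h1
    rw [h1, smul_eq_mul]
    obtain ⟨D, hDD⟩ : ∃ D : ℝ, D = |(discr K : ℝ)| := ⟨_, rfl⟩
    obtain ⟨F, hF⟩ : ∃ F : ℝ, F = (Ideal.absNorm χ.f : ℝ) := ⟨_, rfl⟩
    have hcv : cv K ((χ.f : FI K) * M c) = D ^ (1 / 2 : ℝ) * (F * N c) := by
      unfold cv
      rw [hfMn c, ← hDD, ← hF, Real.sqrt_eq_rpow]
    have hNc := hN0 c
    rw [← hDD] at hd0
    rw [← hF] at hNf
    have hN'e : N' c = (N c)⁻¹ * D⁻¹ * F⁻¹ := by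
      have h2 := hNN c
      rw [← hDD, ← hF] at h2
      have h3 := (hN0 c).ne'
      have h4 := hd0.ne'
      have h5 := hNf.ne'
      field_simp
      linarith
    have e1 : ((N c : ℝ) : ℂ) ^ (1 - s) = cexp (Real.log (N c) * (1 - s)) := by
      rw [cpow_def_of_ne_zero (by exact_mod_cast hNc.ne'), ← ofReal_log hNc.le]
    have e2 : (((D ^ (1 / 2 : ℝ) * (F * N c))⁻¹ : ℝ) : ℂ) =
        cexp (-(Real.log D * (1 / 2) + (Real.log F + Real.log (N c)))) := by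
      have h5 : (D ^ (1 / 2 : ℝ) * (F * N c))⁻¹ =
          Real.exp (-(Real.log D * (1 / 2) + (Real.log F + Real.log (N c)))) := by
        rw [Real.exp_neg, Real.exp_add, Real.exp_add, Real.exp_log hNc, Real.exp_log hNf,
          Real.rpow_def_of_pos hd0]
      rw [h5, ofReal_exp]
      push_cast
      rfl
    have e3 : ((Dc χ : ℝ) : ℂ) ^ (s - 1 / 2) =
        cexp ((Real.log D + Real.log F) * (s - 1 / 2)) := by
      unfold Dc
      rw [← hDD, ← hF, cpow_def_of_ne_zero (by exact_mod_cast (mul_pos hd0 hNf).ne'),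
        ← ofReal_log (mul_pos hd0 hNf).le, Real.log_mul hd0.ne' hNf.ne']
      push_cast
      rfl
    have e4 : ((N' c : ℝ) : ℂ) ^ s = cexp (-(Real.log (N c) + Real.log D + Real.log F) * s) := by
      have h6 : 0 < (N c)⁻¹ * D⁻¹ * F⁻¹ := by positivity
      rw [hN'e, cpow_def_of_ne_zero (by exact_mod_cast h6.ne'), ← ofReal_log h6.le,
        Real.log_mul (mul_ne_zero (inv_ne_zero hNc.ne') (inv_ne_zero hd0.ne'))
          (inv_ne_zero hNf.ne'),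
        Real.log_mul (inv_ne_zero hNc.ne') (inv_ne_zero hd0.ne'), Real.log_inv, Real.log_inv,
        Real.log_inv]
      congr 1
      push_cast
      ring
    have e5 : (((Real.sqrt F)⁻¹ : ℝ) : ℂ) = cexp (-(Real.log F * (1 / 2))) := by
      have h5 : (Real.sqrt F)⁻¹ = Real.exp (-(Real.log F * (1 / 2))) := by
        rw [Real.exp_neg, Real.sqrt_eq_rpow, Real.rpow_def_of_pos hNf]
      rw [h5, ofReal_exp]
      push_cast
      rfl
    rw [hε, ← hF, hcv, e1, e2, e3, e4, e5]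
    have e6 : cexp (Real.log (N c) * (1 - s)) *
        cexp (-(Real.log D * (1 / 2) + (Real.log F + Real.log (N c)))) =
        cexp (-(Real.log F * (1 / 2))) * cexp ((Real.log D + Real.log F) * (s - 1 / 2)) *
          cexp (-(Real.log (N c) + Real.log D + Real.log F) * s) := by
      rw [← Complex.exp_add, ← Complex.exp_add, ← Complex.exp_add]
      congr 1
      ring
    linear_combination ((-I) ^ χ.S.card * W * (P c).symm.Λ s) * e6
  refine ⟨Zc χ (LK N P), Zc χ.bar (LK N' fun c => (P c).symm), ε,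
    IsZc_Zc χ _ (fun s hs => LK_diff N P hN0 s hs) hL1,
    IsZc_Zc χ.bar _ (fun s hs => LK_diff N' _ hN'0 s hs) hL2, ?_, fun s hs => ?_, fun b => ?_⟩
  · -- absolute value of the root number
    rw [hε, norm_mul, norm_mul, norm_pow, norm_neg, norm_I, one_pow, one_mul,
      Complex.norm_of_nonneg (by positivity)]
    have h1 : ‖W‖ = Real.sqrt (Ideal.absNorm χ.f : ℝ) := by
      rw [← hWn, Real.sqrt_sq (norm_nonneg _)]
    rw [h1]
    exact mul_inv_cancel₀ (Real.sqrt_pos.2 hNf).ne'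
  · have hs' : (1 - s).im ≠ 0 := by simpa using hs
    rw [compc_Zc χ _ hs, compc_Zc χ.bar _ hs']
    have h1 := hfe (1 - s)
    rw [sub_sub_cancel] at h1
    rw [h1]
    have h2 : Dc χ.bar = Dc χ := rfl
    rw [h2]
    have h3 : ((Dc χ : ℝ) : ℂ) ^ (s / 2) * ((Dc χ : ℝ) : ℂ) ^ (1 - s - 1 / 2) =
        ((Dc χ : ℝ) : ℂ) ^ ((1 - s) / 2) := by
      rw [← cpow_add _ _ (by exact_mod_cast hD.ne')]
      congr 1
      ring
    linear_combination ((cK K)⁻¹ * ε * LK N' (fun c => (P c).symm) (1 - s)) * h3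
  · obtain ⟨C1, hC1, h1⟩ := LK_bd hBD N P hN0 b
    obtain ⟨C2, hC2, h2⟩ := LK_bd hBD N' (fun c => (P c).symm) hN'0 b
    refine ⟨Real.exp (|Real.log (Dc χ)| * b) * ‖(cK K)⁻¹‖ * (C1 + C2), fun s hs him =>
      ⟨?_, ?_⟩⟩
    · refine (compc_bd χ _ hD b C1 hC1 h1 s hs him).trans ?_
      gcongr
      linarith
    · have hD' : 0 < Dc χ.bar := hD
      refine (compc_bd χ.bar _ hD' b C2 hC2 h2 s hs him).trans ?_
      have h3 : Dc χ.bar = Dc χ := rfl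
      rw [h3]
      gcongr
      linarith

end Pool.Agent.H81.RC
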